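import Pool.Agent.H741.EL.Stm

set_option autoImplicit false
open MeasureTheory Metric Set Filter Topology

namespace Pool.Agent.H763.EL
open Pool.Agent.Y508 Pool.Agent.H741.EL

/-- bound of the integral of a function which is at most `η` on an interval of length `η` and
vanishes on the rest of the interval -/
theorem int_bd {F : ℝ → ℝ} {t η : ℝ} (hη : 0 ≤ η) (u : ℝ) (hut : u - Real.pi ≤ u + Real.pi)
    (h0 : ∀ θ ∈ Ioc (u - Real.pi) (u + Real.pi), θ ∉ Icc t (t + η) → F θ = 0)
    (h1 : ∀ θ ∈ Icc t (t + η), |F θ| ≤ η) :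
    ∫ θ in (u - Real.pi)..(u + Real.pi), F θ ≤ η * η := by
  have hmeas : MeasurableSet (Icc t (t + η)) := measurableSet_Icc
  have hgi : Integrable ((Icc t (t + η)).indicator (fun _ => η)) := by
    refine (integrable_indicator_iff hmeas).2 ?_
    exact integrableOn_const (by rw [Real.volume_Icc]; exact ENNReal.ofReal_ne_top)
  have h2 : ‖∫ θ in (u - Real.pi)..(u + Real.pi), F θ‖ ≤
      ∫ θ in (u - Real.pi)..(u + Real.pi), (Icc t (t + η)).indicator (fun _ => η) θ := by
    refine intervalIntegral.norm_integral_le_of_norm_le hut ?_ hgi.intervalIntegrable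
    refine Eventually.of_forall fun θ hθ => ?_
    by_cases hm : θ ∈ Icc t (t + η)
    · rw [indicator_of_mem hm, Real.norm_eq_abs]
      exact h1 θ hm
    · rw [indicator_of_notMem hm, h0 θ hθ hm, norm_zero]
  have h3 : ∫ θ in (u - Real.pi)..(u + Real.pi), (Icc t (t + η)).indicator (fun _ => η) θ ≤
      η * η := by
    rw [intervalIntegral.integral_of_le hut]
    refine (setIntegral_le_integral hgi (Eventually.of_forall fun θ =>
      indicator_nonneg (fun _ _ => hη) θ)).trans ?_
    rw [integral_indicator_const _ hmeas, Real.volume_real_Icc_of_le (by linarith), smul_eq_mul]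
    have : t + η - t = η := by ring
    rw [this]
  exact (le_abs_self _).trans (h2.trans h3)

theorem shift (K : Set E2) (p w : E2) (t : ℝ) :
    (∫ θ in (0 : ℝ)..(2 * Real.pi), if hs K θ = ip p θ then max (ip w θ) 0 else 0) =
      ∫ θ in (t - Real.pi)..(t + Real.pi), if hs K θ = ip p θ then max (ip w θ) 0 else 0 := by
  have hp : Function.Periodic (fun θ => if hs K θ = ip p θ then max (ip w θ) 0 else 0)
      (2 * Real.pi) := by
    intro θ
    simp only [hs_two_pi, ip_two_pi]
  have h := hp.intervalIntegral_add_eq 0 (t - Real.pi)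
  rw [zero_add] at h
  have e : t - Real.pi + 2 * Real.pi = t + Real.pi := by ring
  rw [e] at h
  exact h

/-- choice of a small angle -/
theorem exists_eta {A B C D : ℝ} (hA : 0 < A) (hB : 0 < B) (hC : 0 < C) (hD : 0 < D) :
    ∃ η : ℝ, 0 < η ∧ η < A ∧ η ≤ B ∧ η ≤ C ∧ η * η < D := by
  refine ⟨min (A / 2) (min B (min C (min 1 (D / 2)))), by positivity, ?_, ?_, ?_, ?_⟩
  · exact (min_le_left _ _).trans_lt (by linarith)
  · exact (min_le_right _ _).trans (min_le_left _ _)
  · exact (min_le_right _ _).trans ((min_le_right _ _).trans (min_le_left _ _))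
  · have h1 : min (A / 2) (min B (min C (min 1 (D / 2)))) ≤ min 1 (D / 2) :=
      (min_le_right _ _).trans ((min_le_right _ _).trans (min_le_right _ _))
    have h2 := h1.trans (min_le_left _ _)
    have h3 := h1.trans (min_le_right _ _)
    have h4 : 0 < min (A / 2) (min B (min C (min 1 (D / 2)))) := by positivity
    nlinarith

/-- The case `α < θp = β`. -/
theorem t_CC (h1 : S_ZZ) (_h2 : S_QQ) : S_CC := by
  intro a b p K θp α R s hcfg hp hs hsR hW harc hα
  have hR : 0 < R := hs.trans hsR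
  have hpi := Real.pi_pos
  have hz := (h1 a b p K θp α θp hcfg hp harc).1 hα
  -- the angle φ₀
  obtain ⟨φ₀, hφ0, hφ1, hφs⟩ : ∃ φ₀ : ℝ, 0 < φ₀ ∧ φ₀ < Real.pi / 2 ∧
      ∀ φ : ℝ, |φ| ≤ φ₀ → s ≤ R * Real.cos φ := by
    have hsR1 : s / R < 1 := (div_lt_one hR).2 hsR
    have hsR0 : 0 < s / R := div_pos hs hR
    refine ⟨Real.arccos (s / R), Real.arccos_pos.2 hsR1, Real.arccos_lt_pi_div_two.2 hsR0,
      fun φ hφ => ?_⟩
    have h3 : Real.cos (Real.arccos (s / R)) ≤ Real.cos |φ| :=
      Real.cos_le_cos_of_nonneg_of_le_pi (abs_nonneg _) (Real.arccos_le_pi _) hφ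
    rw [Real.cos_arccos (by linarith) hsR1.le, Real.cos_abs, div_le_iff₀ hR] at h3
    linarith
  obtain ⟨l, hl⟩ : ∃ l, l = θp - α := ⟨_, rfl⟩
  have hl0 : 0 < l := by rw [hl]; linarith
  have hl1 : l < Real.pi := by rw [hl]; exact harc.h3
  have hm1 : 0 < Real.sin φ₀ := Real.sin_pos_of_pos_of_lt_pi hφ0 (by linarith)
  have hm2 : 0 < Real.sin ((Real.pi + l) / 2) :=
    Real.sin_pos_of_pos_of_lt_pi (by linarith) (by linarith)
  obtain ⟨m, hm⟩ : ∃ m, m = min (Real.sin φ₀) (Real.sin ((Real.pi + l) / 2)) := ⟨_, rfl⟩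
  have hm0 : 0 < m := by rw [hm]; exact lt_min hm1 hm2
  obtain ⟨c, hc⟩ : ∃ c, c = m / (2 * (s + R)) := ⟨_, rfl⟩
  have hc0 : 0 < c := by rw [hc]; positivity
  have hcm : c * (s + R) = m / 2 := by
    rw [hc]
    field_simp
  have hWc : 0 < c * (W K - 2 * Real.pi * R) := mul_pos hc0 (by linarith)
  obtain ⟨η, hη0, hη1, hη2, hη3, hη4⟩ := exists_eta (A := (Real.pi - l) / 2) (B := φ₀)
    (C := Real.pi / 4) (D := c * (W K - 2 * Real.pi * R)) (by linarith) hφ0 (by linarith) hWc
  obtain ⟨w, hw⟩ : ∃ w, w = ev (θp - Real.pi / 2 + η) := ⟨_, rfl⟩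
  have hip : ∀ θ, ip w θ = Real.sin (η - (θ - θp)) := by
    intro θ
    rw [hw, ip_ev]
    have e : θ - (θp - Real.pi / 2 + η) = Real.pi / 2 - (η - (θ - θp)) := by ring
    rw [e, Real.cos_pi_div_two_sub]
  refine ⟨w, c, η, hc0, hη0, by linarith, fun φ hφ => ⟨hφs φ (hφ.trans hη2), ?_⟩,
    fun θ hθ hK => ?_, ?_⟩
  · have h3 := abs_le.1 hφ
    rw [hip]
    exact Real.sin_nonneg_of_nonneg_of_le_pi (by linarith) (by linarith)
  · -- the contact directions
    have h3 : α + 2 * Real.pi ≤ θ := by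
      by_contra hcon
      push Not at hcon
      have h4 := harc.off θ ⟨by linarith [hθ.1], hcon⟩
      linarith
    obtain ⟨φ, hφ⟩ : ∃ φ, φ = θ - θp - 2 * Real.pi := ⟨_, rfl⟩
    have hφl : -l ≤ φ := by rw [hφ, hl]; linarith
    have hφη : φ ≤ -η := by rw [hφ]; linarith [hθ.2]
    have e1 : ip w θ = Real.sin (η - φ) := by
      rw [hip]
      have e : η - (θ - θp) = η - φ - 2 * Real.pi := by rw [hφ]; ring
      rw [e, Real.sin_sub_two_pi]
    have e2 : Real.cos (θ - θp) = Real.cos φ := by
      have e : θ - θp = φ + 2 * Real.pi := by rw [hφ]; ring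
      rw [e, Real.cos_add_two_pi]
    rw [e1, e2]
    have h5 : η - φ ≤ (Real.pi + l) / 2 := by linarith
    by_cases h4 : -φ₀ ≤ φ
    · have h6 : s ≤ R * Real.cos φ := hφs φ (abs_le.2 ⟨h4, by linarith⟩)
      rw [max_eq_right (by linarith), mul_zero]
      exact Real.sin_pos_of_pos_of_lt_pi (by linarith) (by linarith)
    · push Not at h4
      have h6 : m ≤ Real.sin (η - φ) := by
        rw [hm]
        exact strictConcaveOn_sin_Icc.concaveOn.min_le_of_mem_Icc
          ⟨hφ0.le, by linarith⟩ ⟨by linarith, by linarith⟩ ⟨by linarith, h5⟩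
      have h7 : max (s - R * Real.cos φ) 0 ≤ s + R := by
        refine max_le ?_ (by linarith)
        have h8 := Real.neg_one_le_cos φ
        nlinarith
      have h8 : c * max (s - R * Real.cos φ) 0 ≤ c * (s + R) :=
        mul_le_mul_of_nonneg_left h7 hc0.le
      linarith
  · -- the cost
    rw [shift K p w θp]
    refine lt_of_le_of_lt (int_bd (t := θp) hη0.le θp (by linarith) ?_ ?_) hη4
    · intro θ hθ hn
      by_cases h3 : θ < θp
      · have h4 := hz θ ⟨hθ.1.le, h3⟩
        rw [if_neg h4.ne']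
      · push Not at h3
        have h4 : θp + η < θ := by
          by_contra hcon
          push Not at hcon
          exact hn ⟨h3, hcon⟩
        have h5 : ip w θ ≤ 0 := by
          rw [hip]
          exact Real.sin_nonpos_of_nonpos_of_neg_pi_le (by linarith) (by linarith [hθ.2])
        rw [max_eq_right h5]
        exact ite_self _
    · intro θ hθ
      have h3 : |max (ip w θ) 0| ≤ η := by
        rw [abs_of_nonneg (le_max_right _ _)]
        refine max_le ?_ hη0.le
        rw [hip]
        refine (Real.sin_le (by linarith [hθ.2])).trans ?_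
        linarith [hθ.1]
      split_ifs
      · exact h3
      · rw [abs_zero]
        exact hη0.le

end Pool.Agent.H763.EL
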